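import Pool.Agent.helper61.DL.Defs

set_option autoImplicit false

/-!
# MP_6163c8_ag, Denef-Loeser part, module C: the class vanishes when the criterion gives nothing
-/

namespace Pool.Agent.helper85.DL

open Finset Pool.Agent.helper61.DL

section

variable {n : ℕ} {ι : Type}

theorem hc_X_mul (d : ℕ) (v : ι) (P : MvPolynomial ι ℚ) :
    MvPolynomial.homogeneousComponent (d + 1) (MvPolynomial.X v * P) =
      MvPolynomial.X v * MvPolynomial.homogeneousComponent d P := by
  classical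
  ext m
  rw [MvPolynomial.coeff_homogeneousComponent, MvPolynomial.coeff_X_mul',
    MvPolynomial.coeff_X_mul', MvPolynomial.coeff_homogeneousComponent]
  by_cases h : v ∈ m.support
  · rw [if_pos h, if_pos h]
    have hle : Finsupp.single v 1 ≤ m := by
      rw [Finsupp.single_le_iff]
      exact Nat.one_le_iff_ne_zero.2 (Finsupp.mem_support_iff.1 h)
    have hdeg : Finsupp.degree m = Finsupp.degree (m - Finsupp.single v 1) + 1 := by
      conv_lhs => rw [← tsub_add_cancel_of_le hle]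
      rw [map_add, Finsupp.degree_single]
    by_cases h2 : Finsupp.degree (m - Finsupp.single v 1) = d
    · rw [if_pos h2, if_pos (by rw [hdeg, h2])]
    · rw [if_neg h2, if_neg (by rw [hdeg]; omega)]
  · rw [if_neg h, if_neg h, ite_self]

theorem hc_zero_X_mul (v : ι) (P : MvPolynomial ι ℚ) :
    MvPolynomial.homogeneousComponent 0 (MvPolynomial.X v * P) = 0 := by
  classical
  rw [MvPolynomial.homogeneousComponent_zero, MvPolynomial.coeff_X_mul', if_neg (by simp), map_zero]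

theorem ev_hc [DecidableEq ι] (z : ι → ℚ) (A : Finset ι) (d : ℕ) (P : MvPolynomial ι ℚ) :
    MvPolynomial.eval z (MvPolynomial.homogeneousComponent (d + A.card)
      ((∏ v ∈ A, MvPolynomial.X v) * P)) =
    (∏ v ∈ A, z v) * MvPolynomial.eval z (MvPolynomial.homogeneousComponent d P) := by
  induction A using Finset.induction_on generalizing P with
  | empty => simp
  | insert a A ha ih =>
    rw [Finset.prod_insert ha, Finset.prod_insert ha, Finset.card_insert_of_notMem ha,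
      ← add_assoc, mul_assoc, hc_X_mul, map_mul, MvPolynomial.eval_X, ih, mul_assoc]

theorem ev_hc_zero [DecidableEq ι] (z : ι → ℚ) (A : Finset ι) (v : ι) (hv : v ∈ A) (hz : z v = 0)
    (d : ℕ) (P : MvPolynomial ι ℚ) :
    MvPolynomial.eval z (MvPolynomial.homogeneousComponent d
      ((∏ v ∈ A, MvPolynomial.X v) * P)) = 0 := by
  rw [← Finset.mul_prod_erase A _ hv, mul_assoc]
  cases d with
  | zero => rw [hc_zero_X_mul, map_zero]
  | succ d => rw [hc_X_mul, map_mul, MvPolynomial.eval_X, hz, zero_mul]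

end

section

variable {n : ℕ} {ι : Type} [Fintype ι] [DecidableEq ι]

/-- Gysin formula -/
theorem gysin (V : ι → Fin n → ℚ) (𝒱 : Finset (Finset ι)) (hcard : ∀ Δ ∈ 𝒱, Δ.card = n)
    (t : Finset ι → ι → ℚ) (ht0 : ∀ Δ ∈ 𝒱, ∀ v, v ∉ Δ → t Δ v = 0)
    (ht : ∀ Δ ∈ 𝒱, ∀ v ∈ Δ, t Δ v ≠ 0) (ρ A : Finset ι) (hd : Disjoint ρ A)
    (P : MvPolynomial ι ℚ) :
    lamQ V 𝒱 t ρ ((∏ v ∈ A, MvPolynomial.X v) * P) = lamQ V 𝒱 t (ρ ∪ A) P := by
  unfold lamQ
  have h1 : (𝒱.filter fun Δ => ρ ∪ A ⊆ Δ) ⊆ 𝒱.filter fun Δ => ρ ⊆ Δ := by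
    intro Δ hΔ
    rw [Finset.mem_filter] at hΔ ⊢
    exact ⟨hΔ.1, Finset.union_subset_left hΔ.2⟩
  rw [← Finset.sum_subset h1]
  · refine Finset.sum_congr rfl fun Δ hΔ => ?_
    rw [Finset.mem_filter] at hΔ
    obtain ⟨hΔ, hsub⟩ := hΔ
    have hle : (ρ ∪ A).card ≤ n := by
      rw [← hcard Δ hΔ]
      exact Finset.card_le_card hsub
    rw [Finset.card_union_of_disjoint hd] at hle ⊢
    have h2 : n - ρ.card = (n - (ρ.card + A.card)) + A.card := by omega
    rw [h2, ev_hc]
    have h3 : Δ \ ρ = (Δ \ (ρ ∪ A)) ∪ A := by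
      ext v
      simp only [Finset.mem_sdiff, Finset.mem_union, not_or]
      constructor
      · rintro ⟨h, h'⟩
        by_cases hA : v ∈ A
        · exact Or.inr hA
        · exact Or.inl ⟨h, h', hA⟩
      · rintro (⟨h, h', -⟩ | h)
        · exact ⟨h, h'⟩
        · exact ⟨hsub (Finset.mem_union_right _ h), fun h' => Finset.disjoint_left.1 hd h' h⟩
    have h4 : Disjoint (Δ \ (ρ ∪ A)) A := by
      rw [Finset.disjoint_left]
      intro v hv hA
      exact (Finset.mem_sdiff.1 hv).2 (Finset.mem_union_right _ hA)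
    rw [h3, Finset.prod_union h4]
    have h5 : ∏ v ∈ A, t Δ v ≠ 0 := Finset.prod_ne_zero_iff.2 fun v hv =>
      ht Δ hΔ v (hsub (Finset.mem_union_right _ hv))
    rw [← mul_assoc, mul_comm (∏ v ∈ A, t Δ v), mul_div_mul_right _ _ h5]
  · intro Δ hΔ hΔ'
    rw [Finset.mem_filter] at hΔ hΔ'
    obtain ⟨v, hv, hvΔ⟩ : ∃ v ∈ A, v ∉ Δ := by
      by_contra hcon
      push Not at hcon
      exact hΔ' ⟨hΔ.1, Finset.union_subset hΔ.2 hcon⟩
    rw [ev_hc_zero _ A v hv (ht0 Δ hΔ.1 v hvΔ), zero_div]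

theorem lamQ_add (V : ι → Fin n → ℚ) (𝒱 : Finset (Finset ι)) (t : Finset ι → ι → ℚ)
    (σ : Finset ι) (P Q : MvPolynomial ι ℚ) :
    lamQ V 𝒱 t σ (P + Q) = lamQ V 𝒱 t σ P + lamQ V 𝒱 t σ Q := by
  unfold lamQ
  rw [← Finset.sum_add_distrib]
  refine Finset.sum_congr rfl fun Δ _ => ?_
  rw [map_add, map_add, add_div]

theorem lamQ_zero (V : ι → Fin n → ℚ) (𝒱 : Finset (Finset ι)) (t : Finset ι → ι → ℚ)
    (σ : Finset ι) : lamQ V 𝒱 t σ 0 = 0 := by
  unfold lamQ
  refine Finset.sum_eq_zero fun Δ _ => ?_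
  rw [map_zero, map_zero, zero_div]

theorem lamQ_not_face (V : ι → Fin n → ℚ) (𝒱 : Finset (Finset ι)) (t : Finset ι → ι → ℚ)
    (σ : Finset ι) (h : σ ∉ fcs 𝒱) (P : MvPolynomial ι ℚ) : lamQ V 𝒱 t σ P = 0 := by
  unfold lamQ
  refine Finset.sum_eq_zero fun Δ hΔ => absurd ?_ h
  rw [Finset.mem_filter] at hΔ
  unfold fcs
  rw [Finset.mem_biUnion]
  exact ⟨Δ, hΔ.1, Finset.mem_powerset.2 hΔ.2⟩

/-- pairing a face with its apex -/
theorem nu_zero (nn : Finset ι → ℚ) (S : Finset ι) (v : ι) (hv : v ∈ S)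
    (h : ∀ F, F ⊆ S.erase v → nn (insert v F) = nn F) : nu nn S = 0 := by
  unfold nu
  have hS : S.powerset = (S.erase v).powerset ∪ (S.erase v).powerset.image (insert v) := by
    rw [← Finset.powerset_insert, Finset.insert_erase hv]
  have hdisj : Disjoint (S.erase v).powerset ((S.erase v).powerset.image (insert v)) := by
    rw [Finset.disjoint_left]
    intro F hF hF'
    obtain ⟨G, -, rfl⟩ := Finset.mem_image.1 hF'
    exact Finset.notMem_erase v S (Finset.mem_powerset.1 hF (Finset.mem_insert_self v G))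
  rw [hS, Finset.sum_union hdisj, Finset.sum_image, ← Finset.sum_add_distrib]
  · refine Finset.sum_eq_zero fun F hF => ?_
    rw [Finset.mem_powerset] at hF
    have hvF : v ∉ F := fun h' => Finset.notMem_erase v S (hF h')
    have hcF : F.card + 1 ≤ S.card := by
      rw [← Finset.card_insert_of_notMem hvF]
      refine Finset.card_le_card (Finset.insert_subset hv (hF.trans (Finset.erase_subset v S)))
    rw [h F hF, Finset.card_insert_of_notMem hvF]
    have : S.card - F.card = (S.card - (F.card + 1)) + 1 := by omega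
    rw [this, pow_succ]
    ring
  · intro F hF G hG hFG
    have hvF : v ∉ F := fun h' => Finset.notMem_erase v S (Finset.mem_powerset.1 hF h')
    have hvG : v ∉ G := fun h' => Finset.notMem_erase v S (Finset.mem_powerset.1 hG h')
    rw [← Finset.erase_insert hvF, ← Finset.erase_insert hvG, hFG]

theorem cpoly_zero {n : ℕ} {ι : Type} [Fintype ι] [DecidableEq ι] (V : ι → Fin n → ℕ)
    (𝒱 : Finset (Finset ι)) (hcard : ∀ Δ ∈ 𝒱, Δ.card = n)
    (t : Finset ι → ι → ℚ) (ht0 : ∀ Δ ∈ 𝒱, ∀ v, v ∉ Δ → t Δ v = 0)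
    (ht : ∀ Δ ∈ 𝒱, ∀ v ∈ Δ, t Δ v ≠ 0)
    (nn : Finset ι → ℚ)
    (apex : ∀ (F : Finset ι) (v : ι) (j : Fin n), V v j = 1 → (∀ u ∈ F, V u j = 0) →
      nn (insert v F) = nn F)
    (e : ι → ℚ) (σ : Finset ι) (hσ : ∀ v, v ∈ σ ↔ e v ≠ 0) (hσ𝒱 : σ ∈ fcs 𝒱)
    (he : ∀ j, ∑ v, e v * (V v j : ℚ) = 1)
    (T : Finset ι) (hT : ∀ v, v ∈ T ↔ ∃ k : ℕ, e v = k + 1)
    (crit : ∀ ρ : Finset ι, ρ ∪ σ ∈ fcs 𝒱 → (∀ j, ∃ v ∈ ρ, V v j ≠ 0) →
      (∀ v ∈ σ, v ∉ T → v ∈ ρ) → ∀ P : MvPolynomial ι ℚ,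
        lamQ (fun i j => (V i j : ℚ)) 𝒱 t ρ ((∏ v ∈ T, MvPolynomial.X v) * P) = 0) :
    ∀ P : MvPolynomial ι ℚ, lamQ (fun i j => (V i j : ℚ)) 𝒱 t σ (cpoly nn 𝒱 e * P) = 0 := by
  intro P
  have hTσ : T ⊆ σ := by
    intro v hv
    obtain ⟨k, hk⟩ := (hT v).1 hv
    rw [hσ, hk]
    positivity
  unfold cpoly
  rw [Finset.sum_mul]
  have hsum : ∀ (I : Finset (Finset ι)) (f : Finset ι → MvPolynomial ι ℚ),
      (∀ S ∈ I, lamQ (fun i j => (V i j : ℚ)) 𝒱 t σ (f S) = 0) →
      lamQ (fun i j => (V i j : ℚ)) 𝒱 t σ (∑ S ∈ I, f S) = 0 := by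
    intro I f
    induction I using Finset.induction_on with
    | empty => intro _; rw [Finset.sum_empty, lamQ_zero]
    | insert S I hS ih =>
      intro h
      rw [Finset.sum_insert hS, lamQ_add, h S (Finset.mem_insert_self _ _),
        ih fun S' hS' => h S' (Finset.mem_insert_of_mem hS'), add_zero]
  refine hsum _ _ fun S _ => ?_
  -- the case of vanishing coefficient
  by_cases hnu : nu nn S = 0
  · rw [hnu, zero_mul, map_zero, zero_mul, zero_mul, zero_mul, lamQ_zero]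
  -- write the term as a multiple
  set T1 : Finset ι := σ.filter fun v => e v = 1 with hT1
  have d1 : (∏ v ∈ S \ σ, (MvPolynomial.X v : MvPolynomial ι ℚ)) ∣
      ∏ v ∈ S, (MvPolynomial.C (e v) + MvPolynomial.X v) := by
    refine dvd_trans ?_ (Finset.prod_dvd_prod_of_subset (S \ σ) S _ Finset.sdiff_subset)
    refine Finset.prod_dvd_prod_of_dvd _ _ fun v hv => ?_
    have h0 : e v = 0 := by
      by_contra hne
      exact (Finset.mem_sdiff.1 hv).2 ((hσ v).2 hne)
    rw [h0, map_zero, zero_add]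
  have d2 : (∏ v ∈ T1 \ S, (MvPolynomial.X v : MvPolynomial ι ℚ)) ∣
      ∏ v ∈ Finset.univ \ S, (MvPolynomial.C (1 - e v) - MvPolynomial.X v) := by
    refine dvd_trans ?_ (Finset.prod_dvd_prod_of_subset (T1 \ S) (Finset.univ \ S) _
      (Finset.sdiff_subset_sdiff (Finset.subset_univ _) le_rfl))
    refine Finset.prod_dvd_prod_of_dvd _ _ fun v hv => ?_
    have h1 : e v = 1 := (Finset.mem_filter.1 (Finset.mem_sdiff.1 hv).1).2
    rw [h1, sub_self, map_zero, zero_sub]
    exact (dvd_neg).2 dvd_rfl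
  obtain ⟨Q1, hQ1⟩ := d1
  obtain ⟨Q2, hQ2⟩ := d2
  rw [hQ1, hQ2]
  set Q : MvPolynomial ι ℚ := MvPolynomial.C (nu nn S * (-1) ^ S.card) * Q1 * Q2 * P with hQ
  have e1 : MvPolynomial.C (nu nn S * (-1) ^ S.card) *
      ((∏ v ∈ S \ σ, (MvPolynomial.X v : MvPolynomial ι ℚ)) * Q1) *
      ((∏ v ∈ T1 \ S, MvPolynomial.X v) * Q2) * P =
      (∏ v ∈ S \ σ, MvPolynomial.X v) * ((∏ v ∈ T1 \ S, MvPolynomial.X v) * Q) := by
    rw [hQ]; ring
  rw [e1, gysin _ 𝒱 hcard t ht0 ht σ (S \ σ) Finset.disjoint_sdiff]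
  have e2 : σ ∪ S \ σ = S ∪ σ := by
    rw [Finset.union_sdiff_self_eq_union, Finset.union_comm]
  rw [e2]
  by_cases hface : S ∪ σ ∈ fcs 𝒱
  swap
  · exact lamQ_not_face _ _ _ _ hface _
  -- the face `ρ`
  set T' : Finset ι := T.filter fun v => v ∈ S ∨ e v ≠ 1 with hT'
  set ρ : Finset ι := (S ∪ σ) \ T' with hρ
  have hT'σ : T' ⊆ σ := (Finset.filter_subset _ _).trans hTσ
  have e3 : ρ ∪ T' = S ∪ σ := by
    rw [hρ]
    exact Finset.sdiff_union_of_subset (hT'σ.trans Finset.subset_union_right)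
  have e4 : ρ ∪ σ = S ∪ σ := by
    apply Finset.Subset.antisymm
    · exact Finset.union_subset Finset.sdiff_subset Finset.subset_union_right
    · rw [← e3]
      exact Finset.union_subset_union le_rfl hT'σ
  have hd : Disjoint ρ T' := by
    rw [hρ]
    exact Finset.sdiff_disjoint
  -- `T = T' ∪ (T1 \ S)`
  have e5 : T = T' ∪ T1 \ S := by
    ext v
    rw [Finset.mem_union, hT', Finset.mem_filter, Finset.mem_sdiff, hT1, Finset.mem_filter]
    constructor
    · intro hv
      by_cases h : v ∈ S ∨ e v ≠ 1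
      · exact Or.inl ⟨hv, h⟩
      · push Not at h
        exact Or.inr ⟨⟨hTσ hv, h.2⟩, h.1⟩
    · rintro (⟨h, -⟩ | ⟨⟨-, h⟩, -⟩)
      · exact h
      · rw [hT]
        exact ⟨0, by rw [h]; norm_num⟩
  have e6 : Disjoint T' (T1 \ S) := by
    rw [Finset.disjoint_left]
    intro v hv hv'
    rw [hT', Finset.mem_filter] at hv
    rw [Finset.mem_sdiff, hT1, Finset.mem_filter] at hv'
    rcases hv.2 with h | h
    · exact hv'.2 h
    · exact h hv'.1.2
  have key := crit ρ (by rw [e4]; exact hface) ?_ ?_ Q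
  · rw [e5, Finset.prod_union e6, mul_assoc, gysin _ 𝒱 hcard t ht0 ht ρ T' hd, e3] at key
    exact key
  · -- every coordinate is covered
    intro j
    by_contra hcon
    push Not at hcon
    -- the sum is a sum over `T'` of natural numbers
    choose! k hk using fun v (hv : v ∈ T') => (hT v).1 (Finset.mem_filter.1 hv).1
    have h1 : ∑ v, e v * (V v j : ℚ) = ∑ v ∈ T', e v * (V v j : ℚ) := by
      symm
      refine Finset.sum_subset (Finset.subset_univ _) fun v _ hv => ?_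
      by_cases hvσ : v ∈ σ
      · have : v ∈ ρ := by
          rw [hρ, Finset.mem_sdiff]
          exact ⟨Finset.mem_union_right _ hvσ, hv⟩
        rw [hcon v this, Nat.cast_zero, mul_zero]
      · have : e v = 0 := by
          by_contra hne
          exact hvσ ((hσ v).2 hne)
        rw [this, zero_mul]
    have h2 : ∑ v ∈ T', (k v + 1) * V v j = 1 := by
      have h3 : ((∑ v ∈ T', (k v + 1) * V v j : ℕ) : ℚ) = 1 := by
        rw [← he j, h1, Nat.cast_sum]
        refine Finset.sum_congr rfl fun v hv => ?_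
        rw [hk v hv]
        push_cast
        ring
      exact_mod_cast h3
    obtain ⟨v, hv, hvj⟩ : ∃ v ∈ T', (k v + 1) * V v j ≠ 0 := by
      by_contra hc
      push Not at hc
      rw [Finset.sum_eq_zero hc] at h2
      exact absurd h2 zero_ne_one
    rw [← Finset.add_sum_erase _ _ hv] at h2
    have h3 : (k v + 1) * V v j = 1 ∧ ∑ u ∈ T'.erase v, (k u + 1) * V u j = 0 := by omega
    have h4 : V v j = 1 := Nat.eq_one_of_mul_eq_one_left h3.1
    have h5 : k v = 0 := by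
      have := h3.1
      rw [h4, mul_one] at this
      omega
    have h6 : ∀ u ∈ T'.erase v, V u j = 0 := by
      intro u hu
      have := (Finset.sum_eq_zero_iff.1 h3.2) u hu
      rcases Nat.mul_eq_zero.1 this with h | h
      · omega
      · exact h
    have hvS : v ∈ S := by
      rw [hT', Finset.mem_filter] at hv
      rcases hv.2 with h | h
      · exact h
      · exfalso
        apply h
        obtain ⟨k', hk'⟩ := (hT v).1 hv.1
        have := hk v (by rw [hT', Finset.mem_filter]; exact hv)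
        rw [this, h5]
        norm_num
    refine hnu (nu_zero nn S v hvS fun F hF => apex F v j h4 fun u hu => ?_)
    have huS := hF hu
    rw [Finset.mem_erase] at huS
    by_cases huT : u ∈ T'
    · exact h6 u (Finset.mem_erase.2 ⟨huS.1, huT⟩)
    · exact hcon u (by rw [hρ, Finset.mem_sdiff]; exact ⟨Finset.mem_union_left _ huS.2, huT⟩)
  · intro v hv hvT
    rw [hρ, Finset.mem_sdiff]
    exact ⟨Finset.mem_union_right _ hv, fun h => hvT (Finset.mem_filter.1 h).1⟩

end

end Pool.Agent.helper85.DL
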